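import Pool.Agent.AF23.Final

/-! # MP_23dcb4_ag : an invariant cutting out the image of the associated-form map

For all `n ≥ 2`, `d ≥ 3` there is a homogeneous `SL_n`-invariant `J` on the forms of degree
`n (d - 2)` such that the image `U` of the associated form map lies in `D(J)` and is a Zariski
closed subset of `D(J)`. -/

namespace Pool.Agent.Results.MP_23dcb4_ag.AssociatedFormInvariant

open MvPolynomial

/-- the exponents of total degree `s` in `n` variables; they index the coefficients of the forms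
of degree `s` -/
abbrev Expo (n s : ℕ) : Type :=
  {α : Fin n →₀ ℕ // α ∈ Finset.finsuppAntidiag (Finset.univ : Finset (Fin n)) s}

/-- `polyVal J F` is the value `J(F)` at the form `F` of the polynomial function `J` on the space
of forms of degree `s`: the variable of `J` with index `α` is replaced by the coefficient of `F`
at the exponent `α` -/
noncomputable def polyVal {n s : ℕ} (J : MvPolynomial (Expo n s) ℂ)
    (F : MvPolynomial (Fin n) ℂ) : ℂ :=
  eval (fun α : Expo n s => coeff α.1 F) J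

/-- linear substitution `F ∘ A`: the variable number `i` is replaced by `∑ j, A i j * X j` -/
noncomputable def act {n : ℕ} (A : Matrix (Fin n) (Fin n) ℂ) (F : MvPolynomial (Fin n) ℂ) :
    MvPolynomial (Fin n) ℂ :=
  aeval (fun i => ∑ j, C (A i j) * X j) F

/-- the tuples `f = (f_1, …, f_n)` of forms of degree `d - 1` whose only common zero is the
origin -/
def Y (n d : ℕ) : Set (Fin n → MvPolynomial (Fin n) ℂ) :=
  {f | (∀ i, (f i).IsHomogeneous (d - 1)) ∧
    ∀ x : Fin n → ℂ, (∀ i, eval x (f i) = 0) → x = 0}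

/-- `F` is the associated form `Ψ(f)`: a linear functional `ω` on the polynomials vanishes on the
ideal generated by `f`, takes the value `1` at the Jacobian determinant of `f`, and
`F(e) = ω((e_1 z_1 + … + e_n z_n) ^ (n (d - 2)))` for all `e` -/
def IsAssociatedForm (n d : ℕ) (f : Fin n → MvPolynomial (Fin n) ℂ)
    (F : MvPolynomial (Fin n) ℂ) : Prop :=
  F.IsHomogeneous (n * (d - 2)) ∧
  ∃ ω : MvPolynomial (Fin n) ℂ →ₗ[ℂ] ℂ,
    (∀ h ∈ Ideal.span (Set.range f), ω h = 0) ∧
    ω (Matrix.det (Matrix.of fun i j => pderiv j (f i))) = 1 ∧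
    ∀ e : Fin n → ℂ, eval e F = ω ((∑ j, C (e j) * X j) ^ (n * (d - 2)))

/-- the image of the associated form map -/
def U (n d : ℕ) : Set (MvPolynomial (Fin n) ℂ) :=
  {F | ∃ f ∈ Y n d, IsAssociatedForm n d f F}

/-- For all `n ≥ 2` and `d ≥ 3` there is a homogeneous `SL_n`-invariant `J`, of positive degree,
on the forms of degree `n (d - 2)` such that `U` is contained in `D(J)` and is the set of points
of `D(J)` where a set `P` of polynomial functions vanishes. -/
theorem result (n d : ℕ) (hn : 2 ≤ n) (hd : 3 ≤ d) :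
    ∃ (k : ℕ) (J : MvPolynomial (Expo n (n * (d - 2))) ℂ),
      0 < k ∧ J.IsHomogeneous k ∧
      (∀ A : Matrix.SpecialLinearGroup (Fin n) ℂ, ∀ F : MvPolynomial (Fin n) ℂ,
        F.IsHomogeneous (n * (d - 2)) → polyVal J (act A.1 F) = polyVal J F) ∧
      (∀ F ∈ U n d, polyVal J F ≠ 0) ∧
      ∃ P : Set (MvPolynomial (Expo n (n * (d - 2))) ℂ),
        ∀ F : MvPolynomial (Fin n) ℂ, F.IsHomogeneous (n * (d - 2)) → polyVal J F ≠ 0 →
          (F ∈ U n d ↔ ∀ p ∈ P, polyVal p F = 0) := by
  obtain ⟨δ, rfl⟩ : ∃ δ, d = δ + 2 := ⟨d - 2, by omega⟩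
  have hU : ∀ F, F ∈ U n (δ + 2) ↔ F ∈ AF23.U n (δ + 2 - 1) := by
    intro F
    constructor
    · rintro ⟨f, ⟨h1, h2⟩, h3, ω, h4, h5, h6⟩
      exact ⟨h3, f, h1, h2, ω, h4, h5, h6⟩
    · rintro ⟨h3, f, h1, h2, ω, h4, h5, h6⟩
      exact ⟨f, ⟨h1, h2⟩, h3, ω, h4, h5, h6⟩
  obtain ⟨k, J, hk, hJ1, hJ2, P, hP⟩ := AF23.main_theorem n (δ + 2) hn hd
  refine ⟨k, J, hk, hJ1, fun A F hF => hJ2 A.1 A.2 F hF, ?_, P, ?_⟩
  · intro F hF
    exact ((hP F ((hU F).1 hF).1).1 ((hU F).1 hF)).1
  · intro F hF hne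
    rw [hU F, hP F hF]
    constructor
    · exact fun h => h.2
    · exact fun h => ⟨hne, h⟩

end Pool.Agent.Results.MP_23dcb4_ag.AssociatedFormInvariant
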